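import Pool.Agent.Run7.h568.DG.CIface

/-!
# Positivity of the change of the lambda lengths (`C_la`)
-/

open Real Matrix

noncomputable section

namespace Run7.h398.DG

open Run7.h568.DG

/-- nonnegative entries -/
def NN (g : SL) : Prop := ∀ i j, 0 ≤ g.1 i j

/-- signs `(+, -; -, +)` -/
def NS (g : SL) : Prop := 0 ≤ g.1 0 0 ∧ 0 ≤ g.1 1 1 ∧ g.1 0 1 ≤ 0 ∧ g.1 1 0 ≤ 0

theorem NN.one : NN 1 := by
  intro i j
  fin_cases i <;> fin_cases j <;> simp

theorem NN.mul {g h : SL} (hg : NN g) (hh : NN h) : NN (g * h) := by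
  intro i j
  rw [Matrix.SpecialLinearGroup.coe_mul, Matrix.mul_apply]
  exact Finset.sum_nonneg fun k _ => mul_nonneg (hg i k) (hh k j)

theorem NN.pow {g : SL} (hg : NN g) (n : ℕ) : NN (g ^ n) := by
  induction n with
  | zero => rw [pow_zero]; exact NN.one
  | succ n ih => rw [pow_succ]; exact ih.mul hg

theorem NS.one : NS 1 := by
  refine ⟨?_, ?_, ?_, ?_⟩ <;> simp

theorem NS.mul {g h : SL} (hg : NS g) (hh : NS h) : NS (g * h) := by
  obtain ⟨a1, a2, a3, a4⟩ := hg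
  obtain ⟨b1, b2, b3, b4⟩ := hh
  refine ⟨?_, ?_, ?_, ?_⟩ <;>
    rw [Matrix.SpecialLinearGroup.coe_mul, Matrix.mul_apply, Fin.sum_univ_two]
  · have := mul_nonneg a1 b1
    have := mul_nonneg_of_nonpos_of_nonpos a3 b4
    linarith
  · have := mul_nonneg_of_nonpos_of_nonpos a4 b3
    have := mul_nonneg a2 b2
    linarith
  · have := mul_nonpos_of_nonneg_of_nonpos a1 b3
    have := mul_nonpos_of_nonpos_of_nonneg a3 b2
    linarith
  · have := mul_nonpos_of_nonpos_of_nonneg a4 b1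
    have := mul_nonpos_of_nonneg_of_nonpos a2 b4
    linarith

theorem NN.inv {g : SL} (hg : NN g) : NS g⁻¹ := by
  refine ⟨?_, ?_, ?_, ?_⟩ <;> rw [Matrix.SpecialLinearGroup.coe_inv, Matrix.adjugate_fin_two] <;>
    simp
  · exact hg 1 1
  · exact hg 0 0
  · exact hg 0 1
  · exact hg 1 0

theorem det2 (g : SL) : g.1 0 0 * g.1 1 1 - g.1 0 1 * g.1 1 0 = 1 := by
  have h := g.2
  rw [Matrix.det_fin_two] at h
  exact h

theorem NN.pos {g : SL} (hg : NN g) : 0 < g.1 0 0 := by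
  have h := det2 g
  have h1 := mul_nonneg (hg 0 1) (hg 1 0)
  rcases (hg 0 0).eq_or_lt with h0 | h0
  · rw [← h0] at h
    linarith
  · exact h0

theorem NS.pos {g : SL} (hg : NS g) : 0 < g.1 0 0 := by
  obtain ⟨a1, a2, a3, a4⟩ := hg
  have h := det2 g
  have h1 := mul_nonneg_of_nonpos_of_nonpos a3 a4
  rcases a1.eq_or_lt with h0 | h0
  · rw [← h0] at h
    linarith
  · exact h0

theorem NN.list {L : List SL} (h : ∀ g ∈ L, NN g) : NN L.prod := by
  induction L with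
  | nil => exact NN.one
  | cons a L ih =>
    rw [List.prod_cons]
    exact (h a (by simp)).mul (ih fun g hg => h g (by simp [hg]))

theorem NS.list {L : List SL} (h : ∀ g ∈ L, NS g) : NS L.prod := by
  induction L with
  | nil => exact NS.one
  | cons a L ih =>
    rw [List.prod_cons]
    exact (h a (by simp)).mul (ih fun g hg => h g (by simp [hg]))

theorem NN.zpow {g : SL} (hg : NN g) {n : ℤ} (hn : 0 ≤ n) : NN (g ^ n) := by
  obtain ⟨m, rfl⟩ := Int.eq_ofNat_of_zero_le hn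
  rw [zpow_natCast]
  exact hg.pow m

theorem NN.zpow' {g : SL} (hg : NN g) {n : ℤ} (hn : n ≤ 0) : NS (g ^ n) := by
  have h : g ^ n = (g ^ (-n))⁻¹ := by rw [_root_.zpow_neg, inv_inv]
  rw [h]
  exact (hg.zpow (by omega)).inv

/-- products of nonnegative powers of strands -/
theorem Pd_nonneg (hP : C_pos) {D : Type} [Fintype D] [DecidableEq D] {T : Tri D} {P : Portal T}
    (t : PTD P) {p : (D → ℝ) × ℝ} (hp : p ∈ P.Teich) (h : ∀ w, 0 ≤ t.m w) (d : D) {n : ℕ}
    (hn : n ≤ T.num t.c d) : NN (t.Pd p d n) := by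
  refine NN.list fun g hg => ?_
  obtain ⟨i, hi, rfl⟩ := List.mem_map.1 hg
  have hs : NN (t.str p (d, i)) := fun i' j' =>
    ((hP T P t p hp d i (lt_of_lt_of_le (List.mem_range.1 hi) hn)).2.2.2.2 i' j').le
  exact hs.zpow (h _)

/-- products of nonpositive powers of strands -/
theorem Pd_nonpos (hP : C_pos) {D : Type} [Fintype D] [DecidableEq D] {T : Tri D} {P : Portal T}
    (t : PTD P) {p : (D → ℝ) × ℝ} (hp : p ∈ P.Teich) (h : ∀ w, t.m w ≤ 0) (d : D) {n : ℕ}
    (hn : n ≤ T.num t.c d) : NS (t.Pd p d n) := by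
  refine NS.list fun g hg => ?_
  obtain ⟨i, hi, rfl⟩ := List.mem_map.1 hg
  have hs : NN (t.str p (d, i)) := fun i' j' =>
    ((hP T P t p hp d i (lt_of_lt_of_le (List.mem_range.1 hi) hn)).2.2.2.2 i' j').le
  exact hs.zpow' (h _)

theorem la (hE : C_eig) (hP : C_pos) : C_la := by
  intro D _ _ T P t p hp d
  obtain ⟨-, -, -, -, -, hx1, hx0, hx0', -⟩ := hE T P t p hp
  have h1 := hx1 d
  have h2 := hx1 (T.sg d)
  unfold PTD.la PTD.h0 PTD.h1
  rcases t.sgn with h | h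
  · have hN : NN (t.H p d) := Pd_nonneg hP t hp h d le_rfl
    have e1 := hx0 h d
    have e2 := hx0 h (T.sg d)
    have a1 : 0 < (t.H p d).1 0 0 * (1 + t.xi p (T.sg d)) := mul_pos hN.pos (by linarith)
    have a2 := mul_nonneg (hN 0 1) e2
    have a3 : 0 ≤ (t.H p d).1 1 0 * (1 + t.xi p (T.sg d)) := mul_nonneg (hN 1 0) (by linarith)
    have a4 := mul_nonneg (hN 1 1) e2
    have a5 := mul_nonneg e1 (add_nonneg a3 a4)
    linarith
  · have hN : NS (t.H p d) := Pd_nonpos hP t hp h d le_rfl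
    have e1 := hx0' h d
    have e2 := hx0' h (T.sg d)
    have a1 : 0 < (t.H p d).1 0 0 * (1 + t.xi p (T.sg d)) := mul_pos hN.pos (by linarith)
    have a2 := mul_nonneg_of_nonpos_of_nonpos hN.2.2.1 e2
    have a3 : (t.H p d).1 1 0 * (1 + t.xi p (T.sg d)) ≤ 0 :=
      mul_nonpos_of_nonpos_of_nonneg hN.2.2.2 (by linarith)
    have a4 := mul_nonpos_of_nonneg_of_nonpos hN.2.1 e2
    have a5 := mul_nonneg_of_nonpos_of_nonpos e1 (add_nonpos a3 a4)
    linarith

end Run7.h398.DG
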